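import Pool.Agent.Lib.MP_3b3418_ag.PW.SpecT

/-!
# Module FV: the theorem, rows `i ≤ 5`
-/

set_option autoImplicit false

namespace PW

open MP3s PV

theorem tFV (hCV : S_CV) : S_FV := by
  intro m i j hR
  obtain ⟨⟨ρM, hρM⟩, hrat⟩ := tMR tMor aRd m j (-((i : ℤ) + j))
  refine aBC m i j ρM hρM (hrat ρM hρM) (zTA m j _ i ρM hρM (hrat ρM hρM) ?_)
  intro l hl hO η hη
  have h5 : m ≤ 5 → η = del m := fun h => zCB m i j (Or.inr (Or.inr (Or.inr h))) l hl hO η hη
  rcases hR with h | h | h | h | h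
  · exact zCB m i j (Or.inl h) l hl hO η hη
  · exact zCB m i j (Or.inr (Or.inl h)) l hl hO η hη
  · exact zCB m i j (Or.inr (Or.inr (Or.inl h))) l hl hO η hη
  · rcases Nat.lt_or_ge 5 m with h1 | h1
    · exact hCV m i j h h1 l hl hO η hη
    · exact h5 h1
  · exact h5 h

end PW
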