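import Pool.Agent.Lib.MP_3b3418_ag.PW.SpecT

/-!
# Project PV2, part T, module U/Pk: a step in numbers
-/

set_option autoImplicit false

namespace PW

open MP3s PV

/-- The sum over the positions below `u`. -/
private theorem Pk_sum {m : ℕ} (f : Fin m → ℤ) (u : ℕ) (D : ℤ) (hD : 0 ≤ D) (hf : ∀ k, f k ≤ D) :
    ∑ k : Fin m with k.val < u, f k ≤ (u : ℤ) * D := by
  have h1 : ∑ k : Fin m with k.val < u, f k ≤
      ((Finset.univ.filter fun k : Fin m => k.val < u).card : ℤ) * D := by
    have h2 := Finset.sum_le_card_nsmul (Finset.univ.filter fun k : Fin m => k.val < u) f D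
      (fun k _ => hf k)
    rw [nsmul_eq_mul] at h2
    exact h2
  have h3 : (Finset.univ.filter fun k : Fin m => k.val < u).card ≤ u := by
    have h4 : ((Finset.univ.filter fun k : Fin m => k.val < u).image fun k : Fin m => k.val).card =
        (Finset.univ.filter fun k : Fin m => k.val < u).card :=
      Finset.card_image_of_injective _ Fin.val_injective
    rw [← h4]
    have h5 : ((Finset.univ.filter fun k : Fin m => k.val < u).image fun k : Fin m => k.val) ⊆
        Finset.range u := by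
      intro x hx
      obtain ⟨k, hk, rfl⟩ := Finset.mem_image.1 hx
      exact Finset.mem_range.2 (Finset.mem_filter.1 hk).2
    exact (Finset.card_le_card h5).trans (by rw [Finset.card_range])
  have h6 : ((Finset.univ.filter fun k : Fin m => k.val < u).card : ℤ) * D ≤ (u : ℤ) * D :=
    mul_le_mul_of_nonneg_right (by exact_mod_cast h3) hD
  exact h1.trans h6

/-- The sum of a function with the values `0`, `1` and zero from `q` on. -/
private theorem Pk_one {m q : ℕ} (F : Fin m → ℕ) (hF : ∀ l, F l ≤ 1)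
    (h0 : ∀ l : Fin m, q ≤ l.val → F l = 0) : ∑ k, (F k : ℤ) ≤ q := by
  have h2 : ∑ k, (F k : ℤ) = ∑ k : Fin m with k.val < q, (F k : ℤ) := by
    symm
    apply Finset.sum_subset (Finset.filter_subset _ _)
    intro k _ hk
    have h3 : q ≤ k.val := by
      by_contra hc
      exact hk (Finset.mem_filter.2 ⟨Finset.mem_univ _, not_le.1 hc⟩)
    rw [h0 k h3]
    rfl
  rw [h2]
  have h3 := Pk_sum (fun k => (F k : ℤ)) q 1 zero_le_one (fun k => by exact_mod_cast hF k)
  rwa [mul_one] at h3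

/-- The bound of `N`. -/
private theorem Pk_nn {m q : ℕ} (s b γ : Fin m → ℕ) (hs : ∀ l, s l ≤ 1) (hb : ∀ l, b l ≤ 1)
    (hsupp : ∀ l : Fin m, q ≤ l.val → s l = 0 ∧ b l = 0 ∧ γ l = 0) :
    nn s b γ ≤ 2 * q + ((∑ k, γ k : ℕ) : ℤ) := by
  have h2 := Pk_one s hs (fun l hl => (hsupp l hl).1)
  have h3 := Pk_one b hb (fun l hl => (hsupp l hl).2.1)
  unfold nn
  rw [Finset.sum_add_distrib, Finset.sum_add_distrib]
  push_cast
  linarith

/-- The numbers of one step. -/
private theorem Pk_stp (h : S_Pu) {m q : ℕ} {η η' : Fin m → ℤ} {s b γ : Fin m → ℕ}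
    (hS : Stp m q η η' s b γ) :
    Pk m q η η' (uu q η s b γ) (q - uu q η s b γ) (∑ k, γ k)
      ((uu q η s b γ : ℤ) - nn s b γ) := by
  obtain ⟨-, hp2, hp3, -⟩ := zP1 m q η η' s b γ hS
  obtain ⟨-, hdec', htail', hsum'⟩ := zP2 m q η η' s b γ hS
  have hqm : q < m := hS.hq
  have hf1 := zF1 m q η η' s b γ hS
  obtain ⟨-, hnu2⟩ := zNU m q η η' s b γ hS
  have hpu := h m q η η' s b γ hS
  have htl : ∀ k : Fin m, q ≤ k.val → al η k = 0 := fun k hk => by
    unfold al
    rw [hS.tail k hk, sub_self]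
  have htl' : ∀ k : Fin m, q + 1 ≤ k.val → al η' k = 0 := fun k hk => by
    unfold al
    rw [htail' k hk, sub_self]
  have hTS' := zTS m (q + 1) η' hdec'
  obtain ⟨z, hz⟩ : ∃ z : Fin m, z.val = 0 := ⟨⟨0, by omega⟩, rfl⟩
  obtain ⟨hF1, hF2, -⟩ := zF3 m q η η' s b γ hS z hz
  obtain ⟨-, htop, -⟩ := (hTS'.2.2 htail' hsum').1 z hz
  have hnn := Pk_nn s b γ hS.s1 hS.b1 hS.supp
  have hxu : ∀ k : Fin m, k.val = uu q η s b γ →
      al η' k = (uu q η s b γ : ℤ) - nn s b γ := by
    intro k hk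
    unfold al del
    rw [hp3 k hk, hk]
    ring
  have hs1 := hS.s1
  have hb1 := hS.b1
  have hsum0 := hS.sum0
  have ha0 : ∀ a : ℤ, (∀ k, al η k ≤ a) → 0 ≤ a := fun a ha => by
    have h1 := ha ⟨q, hqm⟩
    rwa [htl ⟨q, hqm⟩ le_rfl] at h1
  generalize uu q η s b γ = u at *
  generalize nn s b γ = N at *
  have hio : u = q → (∀ k, (u : ℤ) - N ≤ al η' k) ∧ (u : ℤ) - N ≤ 0 := by
    intro huq
    have h1 : ∀ k : Fin m, k.val ≤ q → (u : ℤ) - N ≤ al η' k := by
      intro k hk
      have h2 := (hTS'.2.1 k ⟨q, hqm⟩ (Fin.le_def.2 hk) (Nat.lt_succ_self q)).2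
      rwa [hxu ⟨q, hqm⟩ huq.symm] at h2
    have h3 : (u : ℤ) - N ≤ 0 := by
      by_contra hc
      push Not at hc
      have h4 : ∀ k ∈ Finset.univ, 0 ≤ al η' k := by
        intro k _
        rcases Nat.lt_or_ge q k.val with h5 | h5
        · exact (htl' k h5).ge
        · exact hc.le.trans (h1 k h5)
      have h6 := (Finset.sum_eq_zero_iff_of_nonneg h4).1 hsum' ⟨q, hqm⟩ (Finset.mem_univ _)
      have h7 := hxu ⟨q, hqm⟩ huq.symm
      linarith
    refine ⟨fun k => ?_, h3⟩
    rcases Nat.lt_or_ge q k.val with h5 | h5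
    · rw [htl' k h5]
      exact h3
    · exact h1 k h5
  have hc0 : (0 : ℤ) ≤ ((∑ k, γ k : ℕ) : ℤ) := Int.natCast_nonneg _
  refine
    { uw := by omega
      qm := hqm
      sum0 := hsum0
      sum1 := hsum'
      tail := htl
      u0 := ?_
      w0 := ?_
      w1 := fun hw ρ hρ => (hnu2 (by omega) ρ hρ).1
      f1 := hf1
      iw := ?_
      ia := fun a ha => hf1.trans (Pk_sum (al η) u a (ha0 a ha) ha)
      up := ?_
      pu := fun hw hio0 ρ hρ => hpu (by omega) hio0 ρ hρ
      xu := hxu }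
  · intro hu
    obtain ⟨e1, e2⟩ := hF1 hu
    refine ⟨?_, e2⟩
    rw [e1, hu]
    simp
  · intro hw
    have huq : u = q := by omega
    obtain ⟨e1, -⟩ := hio huq
    refine ⟨fun k => ?_, ?_⟩
    · have := e1 k
      linarith
    · rw [huq]
      linarith
  · intro ρ hρ
    rcases Nat.lt_or_ge u q with hu | hu
    · have h1 := (hnu2 hu ρ hρ).2
      rw [Nat.cast_sub hp2]
      exact h1
    · have huq : u = q := le_antisymm hp2 hu
      have h1 := (hio huq).2
      rw [huq] at h1
      rw [huq, Nat.sub_self, Nat.cast_zero, zero_mul]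
      exact mul_nonpos_of_nonneg_of_nonpos (by positivity) h1
  · intro a ha k
    have hA0 := ha0 a ha
    rcases Nat.eq_zero_or_pos u with hu | hu
    · rw [(hF1 hu).2 k]
      linarith
    · obtain ⟨k0, -, e1, -⟩ := hF2 hu
      have e2 : (γ k0 : ℤ) ≤ ((∑ k, γ k : ℕ) : ℤ) := by
        exact_mod_cast Finset.single_le_sum (f := fun k => γ k) (fun i _ => Nat.zero_le _)
          (Finset.mem_univ k0)
      have e3 : (s k0 : ℤ) ≤ 1 := by exact_mod_cast hs1 k0
      have e4 : (b k0 : ℤ) ≤ 1 := by exact_mod_cast hb1 k0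
      have e5 : (0 : ℤ) ≤ k0.val := Int.natCast_nonneg _
      have e6 := htop k
      have e7 := ha z
      linarith

/-- **Pk.** -/
theorem tPk (h : S_Pu) : S_Pk := by
  intro m A C β hA hC q η' V' hPa
  obtain ⟨hAc1, -, -⟩ := zAc m A C β hA hC
  cases hPa with
  | step _ η _ V hPa hStp =>
    have hD := hAc1 q η η' V hStp
    obtain ⟨hp1, hp2, -, -⟩ := zP1 m q η η' _ _ _ hStp
    have hPk := Pk_stp h hStp
    refine ⟨η, V, _, _, inn q (zt q η (co q fun p => 1 - A p) (co q C) (co q β)), _, _, hPa, hPk,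
      ?_, ?_⟩
    · generalize inn (q + 1) (zt q η (co q fun p => 1 - A p) (co q C) (co q β)) = i1 at hp1 ⊢
      generalize inn q (zt q η (co q fun p => 1 - A p) (co q C) (co q β)) = i0 at hp1 ⊢
      generalize uu q η (co q fun p => 1 - A p) (co q C) (co q β) = u at hp1 hp2 ⊢
      omega
    · rw [hD]
      unfold dD
      push_cast
      ring

end PW
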