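import Pool.Agent.Lib.MP_3b3418_ag.PW.SpecT

/-!
# Project PV2, module V0: the invariants for `V = 0`
-/

set_option autoImplicit false

namespace PW

open MP3s PV

private lemma V0_zero {m : ℕ} (A C β : Pr m → ℕ) (η : Fin m → ℤ) (V : ℕ) (h : Pa A C β 0 η V) :
    DD A C β 0 V = 0 ∧ ∀ k, al η k = 0 := by
  cases h
  refine ⟨?_, ?_⟩
  · simp [DD, cs]
  · intro k
    simp [al]

theorem tV0 (h : S_Pk) : S_V0 := by
  intro m A C β hA hC q
  induction q with
  | zero =>
    intro η V hPa _
    obtain ⟨hD, ha⟩ := V0_zero A C β η V hPa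
    rw [hD]
    refine ⟨le_rfl, ?_, ?_, ?_⟩
    · intro k
      rw [ha k]
    · intro k l hk
      rw [ha k] at hk
      omega
    · intro h1
      omega
  | succ q ih =>
    intro η' V' hPa hV
    obtain ⟨η, V, u, w, v, c, io, hPa0, pk, hV', hD'⟩ := h m A C β hA hC q η' V' hPa
    have hV0 : V = 0 := by omega
    have hv0 : v = 0 := by omega
    have hw0 : w = 0 := by omega
    obtain ⟨i1, i2, -, -⟩ := ih η V hPa0 hV0
    obtain ⟨r1, r2⟩ := pk.w0 hw0
    have hup := pk.up (DD A C β q V) i2
    have hm : 0 < m := lt_of_le_of_lt (Nat.zero_le _) pk.qm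
    -- some entry is at most zero
    have hR : 0 ≤ -io := by
      by_contra hneg
      have hpos : ∀ k, 0 < al η' k := by
        intro k
        have := r1 k
        omega
      have hne : (Finset.univ : Finset (Fin m)).Nonempty := ⟨⟨0, hm⟩, Finset.mem_univ _⟩
      have := Finset.sum_pos (fun k _ => hpos k) hne
      rw [pk.sum1] at this
      exact lt_irrefl _ this
    have hc : (0 : ℤ) ≤ c := Nat.cast_nonneg c
    have hvz : (v : ℤ) = 0 := by rw [hv0]; rfl
    have hD'' : DD A C β (q + 1) V' = DD A C β q V + c + -io := by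
      rw [hD', hvz]
      ring
    refine ⟨?_, ?_, ?_, ?_⟩
    · rw [hD'']
      linarith
    · intro k
      rw [hD'']
      rcases eq_or_lt_of_le hR with h0 | h0
      · have hnn : ∀ j ∈ (Finset.univ : Finset (Fin m)), 0 ≤ al η' j := by
          intro j _
          have := r1 j
          omega
        have hz := (Finset.sum_eq_zero_iff_of_nonneg hnn).1 pk.sum1 k (Finset.mem_univ k)
        rw [hz]
        linarith
      · have := hup k
        linarith [Int.add_one_le_iff.2 h0]
    · intro k l _
      rw [hD'']
      have e1 := hup l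
      have e2 := r1 k
      linarith
    · intro _ k
      rw [hD'']
      have e2 := r1 k
      push_cast
      linarith

end PW
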