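import Pool.Agent.Lib.MP_3b3418_ag.PW.SpecT

/-!
Project R5 (MP_3b3418_ag), module V1: the invariants for V = 1 (helper92).
-/

set_option autoImplicit false

namespace PW

open MP3s PV

private theorem V1_zero {m : ℕ} (f : Fin m → ℤ) (hs : ∑ k, f k = 0) (h : ∀ k, -f k ≤ 0) :
    ∀ k, f k = 0 := by
  intro k
  exact (Finset.sum_eq_zero_iff_of_nonneg (fun k _ => by linarith [h k])).1 hs k (Finset.mem_univ k)

/-- the sum is zero: a bound of the negative parts is nonnegative -/
private theorem V1_nonneg {m : ℕ} (q : ℕ) (hq : q < m) (f : Fin m → ℤ) (hs : ∑ k, f k = 0) (R : ℤ)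
    (h : ∀ k, -f k ≤ R) : 0 ≤ R := by
  by_contra hR
  push Not at hR
  have h1 := V1_zero f hs (fun k => by linarith [h k])
  have h2 := h ⟨q, hq⟩
  have h3 := h1 ⟨q, hq⟩
  omega

/-- the case `w = 0` in numbers -/
private theorem V1_caseA {m : ℕ} (q c v : ℕ) (hq : q < m) (f : Fin m → ℤ) (hs : ∑ k, f k = 0)
    (D D' io : ℤ) (hD : 0 ≤ D) (hD' : D' = D + v + c - io) (h1 : ∀ k, -f k ≤ -io)
    (h2 : -io ≤ (q : ℤ) + c) (h3 : ∀ k, f k ≤ D + 1 + c) :
    0 ≤ D' ∧ (∀ k, f k ≤ D') ∧ (∀ k, -f k ≤ D') ∧
    (∀ k, (((q + 1 : ℕ) : ℤ) + 1) * (-f k) ≤ ((q + 1 : ℕ) : ℤ) * D' + ((q + 1 : ℕ) : ℤ) - 1) ∧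
    ((∀ k l, 1 ≤ -f k → f l - f k - 1 ≤ D') ∨
      ∀ r : ℕ, ∑ k : Fin m with k.val < r, f k ≤ D') := by
  have hR := V1_nonneg q hq f hs (-io) h1
  have hv : (0 : ℤ) ≤ v := Int.natCast_nonneg v
  have hc : (0 : ℤ) ≤ c := Int.natCast_nonneg c
  have hq0 : (0 : ℤ) ≤ q := Int.natCast_nonneg q
  refine ⟨by omega, ?_, ?_, ?_, Or.inl ?_⟩
  · intro k
    rcases lt_or_ge 0 (-io) with h | h
    · have := h3 k
      omega
    · have h4 := V1_zero f hs (fun k => by linarith [h1 k]) k
      omega
  · intro k
    have := h1 k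
    omega
  · intro k
    have h4 := h1 k
    push_cast
    have h5 : D + c + (-io) ≤ D' := by omega
    have h6 : ((q : ℤ) + 1 + 1) * (-f k) ≤ ((q : ℤ) + 1 + 1) * (-io) :=
      mul_le_mul_of_nonneg_left h4 (by omega)
    have h7 : ((q : ℤ) + 1) * (D + c + (-io)) ≤ ((q : ℤ) + 1) * D' :=
      mul_le_mul_of_nonneg_left h5 (by omega)
    have h8 : 0 ≤ (q : ℤ) * (D + c) := mul_nonneg hq0 (by omega)
    nlinarith
  · intro k l hk
    have h4 := h1 k
    have h5 := h3 l
    omega

theorem tV1 (h : S_Pk) (h0 : S_V0) : S_V1 := by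
  intro m A C β hA hC q
  induction q with
  | zero =>
    intro η V hP hV
    cases hP
    omega
  | succ q ih =>
    intro η' V' hP hV'
    obtain ⟨η, V, u, w, v, c, io, hPa, hk, hV, hD⟩ := h m A C β hA hC q η' V' hP
    set D := DD A C β q V with hDdef
    set D' := DD A C β (q + 1) V' with hD'def
    have hqm := hk.qm
    have hc : (0 : ℤ) ≤ c := Int.natCast_nonneg c
    rcases Nat.eq_zero_or_pos w with hw | hw
    · -- w = 0
      obtain ⟨hw1, hw2⟩ := hk.w0 hw
      have hb : 0 ≤ D ∧ ∀ k, al η k ≤ D := by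
        rcases Nat.eq_zero_or_pos V with hV0 | hV0
        · have h1 := h0 m A C β hA hC q η V hPa hV0
          exact ⟨h1.1, h1.2.1⟩
        · have h1 := ih η V hPa (by omega)
          exact ⟨h1.1, h1.2.1⟩
      exact V1_caseA q c v hqm (al η') hk.sum1 D D' io hb.1 hD hw1 hw2 (hk.up D hb.2)
    · -- w = 1
      have hw1 : w = 1 := by omega
      have hV0 : V = 0 := by omega
      have hv0 : v = 0 := by omega
      have huq : u + 1 = q := by
        have := hk.uw
        omega
      obtain ⟨g1, g2, g3, g4⟩ := h0 m A C β hA hC q η V hPa hV0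
      rw [hv0] at hD
      push_cast at hD
      have hD2 : D' = D + c - io := by omega
      -- al η' = 0 and io ≤ 0
      have hzero : (∀ k, al η' k = 0) → io ≤ 0 →
          0 ≤ D' ∧ (∀ k, al η' k ≤ D') ∧ (∀ k, -al η' k ≤ D') ∧
          (∀ k, (((q + 1 : ℕ) : ℤ) + 1) * (-al η' k) ≤
            ((q + 1 : ℕ) : ℤ) * D' + ((q + 1 : ℕ) : ℤ) - 1) ∧
          ((∀ k l, 1 ≤ -al η' k → al η' l - al η' k - 1 ≤ D') ∨
            ∀ r : ℕ, ∑ k : Fin m with k.val < r, al η' k ≤ D') := by
        intro hz hio
        have hD0 : 0 ≤ D' := by omega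
        refine ⟨hD0, fun k => by rw [hz k]; exact hD0, fun k => by rw [hz k]; omega, fun k => ?_,
          Or.inl fun k l hk1 => ?_⟩
        · rw [hz k]
          push_cast
          have : 0 ≤ ((q : ℤ) + 1) * D' := mul_nonneg (by omega) hD0
          linarith [Int.natCast_nonneg q]
        · rw [hz k] at hk1
          omega
      rcases Nat.eq_zero_or_pos u with hu | hu
      · obtain ⟨k1, k2⟩ := hk.u0 hu
        exact hzero k2 (by omega)
      -- the maxima
      have hne : (Finset.univ : Finset (Fin m)).Nonempty := ⟨⟨q, hqm⟩, Finset.mem_univ _⟩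
      obtain ⟨k0, -, hk0⟩ := Finset.exists_max_image Finset.univ (fun k => -al η k) hne
      obtain ⟨l0, -, hl0⟩ := Finset.exists_max_image Finset.univ (fun k => al η k) hne
      have hρ : ∀ k, -al η k ≤ -al η k0 := fun k => hk0 k (Finset.mem_univ k)
      have ha : ∀ k, al η k ≤ al η l0 := fun k => hl0 k (Finset.mem_univ k)
      set ρ : ℤ := -al η k0 with hρdef
      set a : ℤ := al η l0 with hadef
      have hmin := hk.w1 hw ρ hρ
      rcases lt_or_ge 0 ρ with hρ1 | hρ1
      swap
      · have hz := V1_zero (al η') hk.sum1 (fun k => by linarith [hmin k])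
        have hio := hk.iw ρ hρ
        refine hzero hz ?_
        by_contra hc2
        push Not at hc2
        have h5 : 0 < ((u : ℤ) + 1) * io := mul_pos (by omega) hc2
        have h6 : (w : ℤ) * ρ ≤ 0 := mul_nonpos_of_nonneg_of_nonpos (Int.natCast_nonneg w) hρ1
        omega
      -- ρ ≥ 1, a ≥ 1
      have ha1 : 1 ≤ a := by
        by_contra hc2
        push Not at hc2
        have h5 := V1_zero (fun k => -al η k) (by rw [Finset.sum_neg_distrib, hk.sum0, neg_zero])
          (fun k => by
            have := ha k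
            omega) k0
        omega
      have haρ : a + ρ - 1 ≤ D := by
        have h5 := g3 k0 l0 (by omega)
        omega
      have hq1 : 1 ≤ q := by omega
      have h2ρ : 2 * ρ ≤ D + q - 1 := by
        have h5 := g4 hq1 k0
        omega
      have huq' : (u : ℤ) + 1 = q := by exact_mod_cast huq
      have hiw : (q : ℤ) * io ≤ ρ := by
        have h5 := hk.iw ρ hρ
        rw [huq', hw1] at h5
        push_cast at h5
        linarith
      have hq2 : (2 : ℤ) ≤ q := by omega
      rcases lt_or_ge io 0 with hio | hio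
      · -- io ≤ -1
        have hup := hk.up a ha
        refine ⟨by omega, fun k => ?_, fun k => ?_, fun k => ?_, Or.inl fun k l hk1 => ?_⟩
        · have := hup k
          omega
        · have := hmin k
          omega
        · have h5 := hmin k
          push_cast
          have h6 : ((q : ℤ) + 1 + 1) * (-al η' k) ≤ ((q : ℤ) + 1 + 1) * ρ :=
            mul_le_mul_of_nonneg_left h5 (by omega)
          have h7 : ((q : ℤ) + 1) * (D + 1) ≤ ((q : ℤ) + 1) * D' :=
            mul_le_mul_of_nonneg_left (by omega) (by omega)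
          have h8 : 0 ≤ (q : ℤ) * (D - ρ) := mul_nonneg (by omega) (by omega)
          nlinarith
        · have h5 := hmin k
          have h6 := hup l
          omega
      · -- io ≥ 0
        obtain ⟨hp1, hp2⟩ := hk.pu hw1 hio ρ hρ
        have hDρ : ρ ≤ D' := by
          rcases lt_or_ge 0 io with h5 | h5
          · have h6 := hk.ia a ha
            rw [huq'] at h6
            have hu' : (u : ℤ) = q - 1 := by omega
            rw [hu'] at h6
            have h7 : io + 1 ≤ a := by
              by_contra hc2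
              push Not at hc2
              have h8 : ((q : ℤ) - 1) * a ≤ ((q : ℤ) - 1) * io :=
                mul_le_mul_of_nonneg_left (by omega) (by omega)
              nlinarith
            omega
          · omega
        refine ⟨by omega, fun k => ?_, fun k => ?_, fun k => ?_, Or.inr fun r => ?_⟩
        · exact le_trans (hp2 k) hDρ
        · exact le_trans (hmin k) hDρ
        · have h5 := hmin k
          push_cast
          have h6 : ((q : ℤ) + 1 + 1) * (-al η' k) ≤ ((q : ℤ) + 1 + 1) * ρ :=
            mul_le_mul_of_nonneg_left h5 (by omega)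
          have h7 : ρ - q ≤ ((q : ℤ) + 1) * (D' - ρ) := by
            rcases lt_or_ge (q : ℤ) ρ with h8 | h8
            · have h9 : ρ - q + 1 - io ≤ D' - ρ := by omega
              have h10 : (q : ℤ) * (ρ - q) ≤ (q : ℤ) * (((q : ℤ) + 1) * (D' - ρ)) := by
                have e1 : (q : ℤ) * (((q : ℤ) + 1) * (ρ - q + 1 - io)) ≤
                    (q : ℤ) * (((q : ℤ) + 1) * (D' - ρ)) :=
                  mul_le_mul_of_nonneg_left (mul_le_mul_of_nonneg_left h9 (by omega)) (by omega)
                have e2 : ((q : ℤ) + 1) * ((q : ℤ) * io) ≤ ((q : ℤ) + 1) * ρ :=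
                  mul_le_mul_of_nonneg_left hiw (by omega)
                have e3 : 0 ≤ ((q : ℤ) ^ 2 - 1 - q) * (ρ - q) := by
                  refine mul_nonneg ?_ (by omega)
                  nlinarith
                nlinarith
              exact le_of_mul_le_mul_left h10 (by omega)
            · have h9 : 0 ≤ ((q : ℤ) + 1) * (D' - ρ) := mul_nonneg (by omega) (by omega)
              omega
          nlinarith
        · exact le_trans (hp1 r) hDρ

end PW
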