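import Pool.Agent.Lib.MP_3b3418_ag.PW.SpecT

/-!
# Project PV2, part T, module V2 (helper40): invariants for `V = 2`
-/

set_option autoImplicit false

namespace PW

open MP3s PV

private theorem V2_nonneg {m : ℕ} (f : Fin m → ℤ) (hs : ∑ k, f k = 0) (R : ℤ) (hm : 0 < m)
    (h : ∀ k, -f k ≤ R) : 0 ≤ R := by
  by_contra hR
  have h1 : 0 < ∑ k, f k := by
    refine Finset.sum_pos (fun k _ => ?_) ⟨⟨0, hm⟩, Finset.mem_univ _⟩
    have := h k
    omega
  omega

private theorem V2_pos {m : ℕ} (f : Fin m → ℤ) (hs : ∑ k, f k = 0) (a : ℤ)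
    (h : ∀ k, f k ≤ a) (k0 : Fin m) (hk : f k0 ≤ -1) : 1 ≤ a := by
  classical
  by_contra ha
  have h1 : ∑ k ∈ Finset.univ.erase k0, f k ≤ 0 := by
    refine Finset.sum_nonpos fun k _ => ?_
    have := h k
    omega
  have h2 := Finset.add_sum_erase Finset.univ f (Finset.mem_univ k0)
  omega

theorem tV2 (h : S_Pk) (h0 : S_V0) (h1 : S_V1) : S_V2 := by
  intro m A C β hA hC q
  induction q with
  | zero =>
    intro η V hP hV
    cases hP
    exact absurd hV (by norm_num)
  | succ q ih =>
    intro η' V' hP hV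
    obtain ⟨η, V, u, w, v, c, io, hPa, P, hVV, hD⟩ := h m A C β hA hC q η' V' hP
    rw [hD]
    obtain ⟨D, hDdef⟩ : ∃ D, D = DD A C β q V := ⟨_, rfl⟩
    rw [← hDdef]
    have hqm := P.qm
    have huw := P.uw
    have hv0 : (0 : ℤ) ≤ v := Int.natCast_nonneg v
    have hc0 : (0 : ℤ) ≤ c := Int.natCast_nonneg c
    have hu0 : (0 : ℤ) ≤ u := Int.natCast_nonneg u
    have hD0 : 0 ≤ D := by
      rw [hDdef]
      rcases (by omega : V = 0 ∨ V = 1 ∨ V = 2) with hv | hv | hv
      · exact (h0 m A C β hA hC q η V hPa hv).1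
      · exact (h1 m A C β hA hC q η V hPa hv).1
      · exact (ih η V hPa hv).1
    have hmpos : 0 < m := by omega
    rcases Nat.eq_zero_or_pos w with hw | hw
    · have hw0 := P.w0 hw
      have hio : 0 ≤ -io := V2_nonneg (al η') P.sum1 (-io) hmpos hw0.1
      refine ⟨by linarith, fun k => ?_⟩
      have := hw0.1 k
      linarith
    · obtain ⟨k0, _, hk0⟩ := Finset.exists_max_image Finset.univ (fun k => -al η k)
        ⟨⟨0, hmpos⟩, Finset.mem_univ _⟩
      obtain ⟨ρ, hρ⟩ : ∃ ρ, ρ = -al η k0 := ⟨_, rfl⟩
      have hρall : ∀ k, -al η k ≤ ρ := fun k => by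
        rw [hρ]
        exact hk0 k (Finset.mem_univ k)
      have hρ0 : 0 ≤ ρ := V2_nonneg (al η) P.sum0 ρ hmpos hρall
      have hη' := P.w1 hw ρ hρall
      have hiw := P.iw ρ hρall
      suffices hs : ρ ≤ D + v + c - io from ⟨by linarith, fun k => (hη' k).trans hs⟩
      rcases (by omega : V = 1 ∧ w = 1 ∧ v = 0 ∨ V = 0) with ⟨hV1, hw1, hvz⟩ | hV0
      · obtain ⟨-, -, h13, h14, -⟩ := h1 m A C β hA hC q η V hPa hV1
        have h3 := h13 k0
        have h4 := h14 k0
        rw [← hDdef, ← hρ] at h3 h4
        have hq : (q : ℤ) = u + 1 := by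
          have : q = u + 1 := by omega
          rw [this]
          push_cast
          ring
        rw [hw1] at hiw
        rw [hq] at h4
        rcases le_or_gt io 0 with hio | hio
        · linarith
        · by_contra hcon
          have hX : 0 ≤ ρ - D + io - 1 := by omega
          have h5 := mul_nonneg (by linarith : (0 : ℤ) ≤ (u : ℤ) + 1) hX
          push_cast at hiw
          nlinarith
      · obtain ⟨-, -, h03, -⟩ := h0 m A C β hA hC q η V hPa hV0
        rcases le_or_gt ρ 0 with hρn | hρp
        · have hρz : ρ = 0 := le_antisymm hρn hρ0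
          rw [hρz, mul_zero] at hiw
          have hio : io ≤ 0 := by
            by_contra hio
            have h5 : 0 < ((u : ℤ) + 1) * io := mul_pos (by linarith) (by omega)
            linarith
          linarith
        · obtain ⟨l, _, hl⟩ := Finset.exists_max_image Finset.univ (fun k => al η k)
            ⟨⟨0, hmpos⟩, Finset.mem_univ _⟩
          have ha : ∀ k, al η k ≤ al η l := fun k => hl k (Finset.mem_univ k)
          have ha1 : 1 ≤ al η l := V2_pos (al η) P.sum0 _ ha k0 (by omega)
          have h3 := h03 k0 l (by omega)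
          rw [← hDdef] at h3
          have hia := P.ia _ ha
          have hio : io ≤ al η l - 1 := by
            by_contra hio
            have hX : 0 ≤ io - al η l := by omega
            have h5 := mul_nonneg (by linarith : (0 : ℤ) ≤ (u : ℤ) + 1) hX
            nlinarith
          linarith

end PW
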