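import Pool.Agent.Lib.MP_3b3418_ag.PW.SpecT

/-!
# Project PV2, part T: `S_V3`
-/

set_option autoImplicit false

namespace PW

open MP3s PV

/-- The claim at stage `q + 1` in numbers, for one entry `X` and `E = D'`. -/
private def Gl3 (q : ℕ) (E X : ℤ) : Prop :=
  0 ≤ E ∧ (q + 1 ≤ 4 → X ≤ 2 * E) ∧
    (5 ≤ q + 1 → 1 ≤ X → 2 * X < (((q + 1 : ℕ) : ℤ) - 1) * E)

private lemma gl3_le (q : ℕ) (E X : ℤ) (h0 : 0 ≤ E) (h : X ≤ E) : Gl3 q E X := by
  refine ⟨h0, fun _ => by linarith, fun hq hX => ?_⟩
  have hq' : (4 : ℤ) ≤ q := by exact_mod_cast (by omega : 4 ≤ q)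
  have h4 := mul_le_mul_of_nonneg_right hq' h0
  have e : (((q + 1 : ℕ) : ℤ) - 1) * E = q * E := by push_cast; ring
  rw [e]
  linarith

private lemma gl3_w1 (q : ℕ) (E X ρ : ℤ) (hq : 2 ≤ q) (hρ : 1 ≤ ρ) (hX : X ≤ ρ)
    (h : ((q : ℤ) - 1) * ρ ≤ q * E) : Gl3 q E X := by
  have hq2 : (2 : ℤ) ≤ q := by exact_mod_cast hq
  have hE : 0 ≤ E := by
    by_contra hneg
    push Not at hneg
    have h1 : (q : ℤ) * E < 0 := mul_neg_of_pos_of_neg (by linarith) hneg
    have h2 : 0 ≤ ((q : ℤ) - 1) * ρ := mul_nonneg (by linarith) (by linarith)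
    linarith
  refine ⟨hE, fun h4 => ?_, fun h5 hX1 => ?_⟩
  · have hc : q = 2 ∨ q = 3 := by omega
    rcases hc with rfl | rfl
    · push_cast at h; linarith
    · push_cast at h; linarith
  · have hq4 : (4 : ℤ) ≤ q := by exact_mod_cast (by omega : 4 ≤ q)
    have h3 : (3 : ℤ) * ρ ≤ ((q : ℤ) - 1) * ρ :=
      mul_le_mul_of_nonneg_right (by linarith) (by linarith)
    have e : (((q + 1 : ℕ) : ℤ) - 1) * E = q * E := by push_cast; ring
    rw [e]
    linarith

private lemma gl3_w2 (q : ℕ) (E X ρ : ℤ) (hq : 3 ≤ q) (hρ : 1 ≤ ρ) (hX : X ≤ ρ)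
    (h : ((q : ℤ) - 2) * ρ ≤ ((q : ℤ) - 1) * E) : Gl3 q E X := by
  have hq2 : (3 : ℤ) ≤ q := by exact_mod_cast hq
  have hE : 0 ≤ E := by
    by_contra hneg
    push Not at hneg
    have h1 : ((q : ℤ) - 1) * E < 0 := mul_neg_of_pos_of_neg (by linarith) hneg
    have h2 : 0 ≤ ((q : ℤ) - 2) * ρ := mul_nonneg (by linarith) (by linarith)
    linarith
  refine ⟨hE, fun h4 => ?_, fun h5 hX1 => ?_⟩
  · have hc : q = 3 := by omega
    subst hc
    push_cast at h; linarith
  · have hq4 : (4 : ℤ) ≤ q := by exact_mod_cast (by omega : 4 ≤ q)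
    have e : (((q + 1 : ℕ) : ℤ) - 1) * E = q * E := by push_cast; ring
    rw [e]
    by_contra hneg
    push Not at hneg
    have h6 : (q : ℤ) * E ≤ 2 * ρ := by linarith
    have h7 : ((q : ℤ) - 1) * (q * E) ≤ ((q : ℤ) - 1) * (2 * ρ) :=
      mul_le_mul_of_nonneg_left h6 (by linarith)
    have h8 : (q : ℤ) * (((q : ℤ) - 2) * ρ) ≤ q * (((q : ℤ) - 1) * E) :=
      mul_le_mul_of_nonneg_left h (by linarith)
    have h9 : (0 : ℤ) ≤ (q : ℤ) * ((q : ℤ) - 4) := mul_nonneg (by linarith) (by linarith)
    have h10 : (0 : ℤ) ≤ ((q : ℤ) * ((q : ℤ) - 4)) * ρ := mul_nonneg h9 (by linarith)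
    have e2 : (q : ℤ) * (((q : ℤ) - 2) * ρ) - ((q : ℤ) - 1) * (2 * ρ) =
        ((q : ℤ) * ((q : ℤ) - 4)) * ρ + 2 * ρ := by ring
    have e3 : ((q : ℤ) - 1) * (q * E) = q * (((q : ℤ) - 1) * E) := by ring
    linarith

private lemma ex3_le {m : ℕ} (hm : 0 < m) (f : Fin m → ℤ) (hs : ∑ k, f k = 0) :
    ∃ k, f k ≤ 0 := by
  by_contra hneg
  push Not at hneg
  have : Nonempty (Fin m) := ⟨⟨0, hm⟩⟩
  have hp : 0 < ∑ k, f k := Finset.sum_pos (fun k _ => hneg k) Finset.univ_nonempty
  linarith

private lemma ex3_pos {m : ℕ} (f : Fin m → ℤ) (hs : ∑ k, f k = 0) (k0 : Fin m)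
    (h : f k0 < 0) : ∃ k, 1 ≤ f k := by
  by_contra hneg
  push Not at hneg
  have hp : ∑ k, f k < 0 := Finset.sum_neg' (fun k _ => by have := hneg k; omega)
    ⟨k0, Finset.mem_univ _, h⟩
  linarith

theorem tV3 (h : S_Pk) (h0 : S_V0) (h1 : S_V1) (h2 : S_V2) : S_V3 := by
  intro m A C β hA hC q
  induction q with
  | zero =>
    intro η V hP hV
    exfalso
    cases hP
    omega
  | succ q ih =>
    intro η' V' hP hV'
    obtain ⟨η, V, u, w, v, c, io, hPa, hk, hVV, hD⟩ := h m A C β hA hC q η' V' hP
    have hm : 0 < m := by have := hk.qm; omega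
    suffices key : ∀ k, Gl3 q (DD A C β (q + 1) V') (-al η' k) from
      ⟨(key ⟨0, hm⟩).1, fun h4 k => (key k).2.1 h4, fun h5 k => (key k).2.2 h5⟩
    have hD0 : 0 ≤ DD A C β q V := by
      have hV3 : V = 0 ∨ V = 1 ∨ V = 2 ∨ V = 3 := by omega
      rcases hV3 with hV | hV | hV | hV
      · exact (h0 m A C β hA hC q η V hPa hV).1
      · exact (h1 m A C β hA hC q η V hPa hV).1
      · exact (h2 m A C β hA hC q η V hPa hV).1
      · exact (ih η V hPa hV).1
    have H0 := h0 m A C β hA hC q η V hPa
    have H1 := h1 m A C β hA hC q η V hPa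
    have H2 := h2 m A C β hA hC q η V hPa
    generalize DD A C β q V = D at hD hD0 H0 H1 H2
    generalize DD A C β (q + 1) V' = E at hD
    have hvc : (0 : ℤ) ≤ (v : ℤ) + c := by positivity
    by_cases hw : w = 0
    · obtain ⟨hw1, -⟩ := hk.w0 hw
      obtain ⟨k1, hk1⟩ := ex3_le hm (al η') hk.sum1
      have hk2 := hw1 k1
      intro k
      exact gl3_le q E _ (by linarith) (by linarith [hw1 k])
    · have hw1 : 1 ≤ w := by omega
      have : Nonempty (Fin m) := ⟨⟨0, hm⟩⟩
      obtain ⟨k0, -, hk0⟩ := Finset.exists_max_image Finset.univ (fun k => -al η k)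
        Finset.univ_nonempty
      obtain ⟨k1, -, hk1⟩ := Finset.exists_max_image Finset.univ (fun k => al η k)
        Finset.univ_nonempty
      have hρ : ∀ k, -al η k ≤ -al η k0 := fun k => hk0 k (Finset.mem_univ k)
      have ha : ∀ k, al η k ≤ al η k1 := fun k => hk1 k (Finset.mem_univ k)
      obtain ⟨ρ, hρd⟩ : ∃ ρ, ρ = -al η k0 := ⟨_, rfl⟩
      obtain ⟨a, had⟩ : ∃ a, a = al η k1 := ⟨_, rfl⟩
      rw [← hρd] at hρ
      rw [← had] at ha
      have hX := hk.w1 hw1 ρ hρ
      have hiw := hk.iw ρ hρ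
      have hia := hk.ia a ha
      by_cases hρ1 : ρ ≤ 0
      · have hio : io ≤ 0 := by
          by_contra hneg
          push Not at hneg
          have h1' : (w : ℤ) * ρ ≤ 0 :=
            mul_nonpos_of_nonneg_of_nonpos (Int.natCast_nonneg w) hρ1
          have h2' : (0 : ℤ) < ((u : ℤ) + 1) * io := mul_pos (by positivity) hneg
          linarith
        intro k
        exact gl3_le q E _ (by linarith) (by linarith [hX k])
      · by_cases hu : u = 0
        · obtain ⟨hio, hal⟩ := hk.u0 hu
          intro k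
          exact gl3_le q E _ (by linarith) (by rw [hal k]; linarith)
        · have hρ2 : 1 ≤ ρ := by omega
          obtain ⟨k2, hk2⟩ := ex3_pos (al η) hk.sum0 k0 (by omega)
          have ha1 : 1 ≤ a := by have := ha k2; omega
          have hioa : io ≤ a - 1 := by
            by_contra hneg
            push Not at hneg
            have h3 : ((u : ℤ) + 1) * a ≤ ((u : ℤ) + 1) * io :=
              mul_le_mul_of_nonneg_left (by omega) (by positivity)
            have e : ((u : ℤ) + 1) * a = u * a + a := by ring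
            linarith
          have hcl : (∀ k l, 1 ≤ -al η k → al η l - al η k - 1 ≤ D) →
              ∀ k, Gl3 q E (-al η' k) := by
            intro hh k
            have h3 := hh k0 k1 (by omega)
            have h4 := hX k
            exact gl3_le q E _ (by linarith) (by linarith)
          have huw := hk.uw
          by_cases hV0 : V = 0
          · exact hcl (H0 hV0).2.2.1
          · have hρD : ρ ≤ D := by
              have hV12 : V = 1 ∨ V = 2 := by omega
              rcases hV12 with hV | hV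
              · rw [hρd]; exact (H1 hV).2.2.1 k0
              · rw [hρd]; exact (H2 hV).2 k0
            have hw12 : w = 1 ∨ w = 2 := by omega
            rcases hw12 with hw' | hw'
            · subst hw'
              intro k
              have hqu : (q : ℤ) = u + 1 := by rw [← huw]; push_cast; ring
              refine gl3_w1 q E _ ρ (by omega) hρ2 (hX k) ?_
              have h3 : (q : ℤ) * (ρ - io) ≤ q * E :=
                mul_le_mul_of_nonneg_left (by linarith) (by positivity)
              rw [← hqu] at hiw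
              have e : (q : ℤ) * (ρ - io) = (q : ℤ) * ρ - q * io := by ring
              have e2 : ((q : ℤ) - 1) * ρ = (q : ℤ) * ρ - ρ := by ring
              push_cast at hiw
              linarith
            · subst hw'
              have hV1 : V = 1 := by omega
              rcases (H1 hV1).2.2.2.2 with hf | hf
              · exact hcl hf
              · intro k
                have hqu : (q : ℤ) - 1 = u + 1 := by rw [← huw]; push_cast; ring
                refine gl3_w2 q E _ ρ (by omega) hρ2 (hX k) ?_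
                have hf1 := hk.f1
                have hfu := hf u
                rw [← hqu] at hf1
                have h3 : ((q : ℤ) - 1) * (D - io) ≤ ((q : ℤ) - 1) * E :=
                  mul_le_mul_of_nonneg_left (by linarith) (by rw [hqu]; positivity)
                have h4 : ((q : ℤ) - 2) * ρ ≤ ((q : ℤ) - 2) * D :=
                  mul_le_mul_of_nonneg_left hρD (by
                    have : (3 : ℤ) ≤ q := by exact_mod_cast (by omega : 3 ≤ q)
                    linarith)
                have e : ((q : ℤ) - 1) * (D - io) = ((q : ℤ) - 1) * D - ((q : ℤ) - 1) * io := by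
                  ring
                have e2 : ((q : ℤ) - 2) * D = ((q : ℤ) - 1) * D - D := by ring
                linarith

end PW
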