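import Pool.Agent.Lib.MP_3b3418_ag.PW.SpecT

/-!
# Project PV2, part T: the case `V = 4`
-/

set_option autoImplicit false

namespace PW

open MP3s PV

private lemma V4_max (m : ℕ) (f : Fin m → ℤ) (hm : 0 < m) : ∃ k0, ∀ k, f k ≤ f k0 := by
  obtain ⟨k0, -, hk⟩ := Finset.exists_max_image (Finset.univ : Finset (Fin m)) f
    ⟨⟨0, hm⟩, Finset.mem_univ _⟩
  exact ⟨k0, fun k => hk k (Finset.mem_univ _)⟩

private lemma V4_nn (m : ℕ) (f : Fin m → ℤ) (ρ : ℤ) (hm : 0 < m) (hs : ∑ k, f k = 0)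
    (h : ∀ k, f k ≤ ρ) : 0 ≤ ρ := by
  have h1 : ∑ k, f k ≤ (Finset.univ : Finset (Fin m)).card • ρ :=
    Finset.sum_le_card_nsmul _ _ _ (fun k _ => h k)
  rw [hs, Finset.card_univ, Fintype.card_fin, nsmul_eq_mul] at h1
  by_contra hc
  have h2 : ρ < 0 := not_le.1 hc
  have h3 : (0 : ℤ) < m := by exact_mod_cast hm
  nlinarith

private lemma V4_two (m : ℕ) (f : Fin m → ℤ) (hs : ∑ k, f k = 0) (k0 : Fin m)
    (h : 1 ≤ -f k0) : ∃ l, 1 ≤ f l := by
  by_contra hc
  push Not at hc
  have h1 : ∀ l ∈ (Finset.univ : Finset (Fin m)), f l ≤ 0 := by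
    intro l _
    have := hc l
    omega
  have h2 := (Finset.sum_eq_zero_iff_of_nonpos h1).1 hs k0 (Finset.mem_univ _)
  omega

private lemma V4_ar (q u w v c V : ℕ) (D D' io ρ a : ℤ) (hq : 4 ≤ q) (huw : u + w = q)
    (hV : 4 = V + v + w) (hw : 1 ≤ w) (hD : D' = D + v + c - io) (hρ : 1 ≤ ρ)
    (ha : 1 ≤ a) (iw : ((u : ℤ) + 1) * io ≤ w * ρ) (ia : ((u : ℤ) + 1) * io ≤ u * a)
    (e0 : V = 0 → a + ρ - 1 ≤ D) (e1 : V = 1 → a ≤ D ∧ ρ ≤ D) (e2 : V = 2 → ρ ≤ D)
    (e3 : V = 3 → (q ≤ 4 → ρ ≤ 2 * D) ∧ (5 ≤ q → 2 * ρ < ((q : ℤ) - 1) * D)) :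
    ρ < ((q : ℤ) + 1) * D' := by
  by_contra hcon
  have hcon := not_lt.1 hcon
  have hx : D - io ≤ D' := by omega
  obtain ⟨Q, hQ⟩ : ∃ Q : ℤ, Q = (q : ℤ) := ⟨_, rfl⟩
  have hQ4 : 4 ≤ Q := by omega
  rw [← hQ] at hcon
  have A1 : (Q + 1) * (D - io) ≤ ρ :=
    (mul_le_mul_of_nonneg_left hx (by linarith)).trans hcon
  rcases (by omega : w = 1 ∨ w = 2 ∨ w = 3 ∨ w = 4) with h | h | h | h
  · have hu : (u : ℤ) + 1 = Q := by omega
    rw [hu, h, Nat.cast_one, one_mul] at iw
    rcases (by omega : V = 3 ∨ V ≤ 2) with hV3 | hV2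
    · rcases (by omega : q = 4 ∨ 5 ≤ q) with h4 | h5
      · have h6 := (e3 hV3).1 (by omega)
        have h7 : Q = 4 := by omega
        rw [h7] at iw A1
        omega
      · have h6 := (e3 hV3).2 h5
        rw [← hQ] at h6
        have A2 : Q * (Q - 1) * ((Q + 1) * (D - io)) ≤ Q * (Q - 1) * ρ :=
          mul_le_mul_of_nonneg_left A1 (by nlinarith)
        have A3 : Q * (Q + 1) * (2 * ρ + 1) ≤ Q * (Q + 1) * ((Q - 1) * D) :=
          mul_le_mul_of_nonneg_left (by linarith) (by nlinarith)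
        have A4 : (Q - 1) * (Q + 1) * (Q * io) ≤ (Q - 1) * (Q + 1) * ρ :=
          mul_le_mul_of_nonneg_left iw (by nlinarith)
        have A6 : 0 < ρ * (3 * Q + 1) + Q * (Q + 1) :=
          add_pos (mul_pos (by linarith) (by linarith)) (mul_pos (by linarith) (by linarith))
        linarith [A2, A3, A4, A6]
    · have hρD : ρ ≤ D := by
        rcases (by omega : V = 0 ∨ V = 1 ∨ V = 2) with h0 | h1 | h2
        · have := e0 h0
          omega
        · exact (e1 h1).2
        · exact e2 h2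
      have A2 : Q * ((Q + 1) * (D - io)) ≤ Q * ρ := mul_le_mul_of_nonneg_left A1 (by linarith)
      have A3 : Q * (Q + 1) * ρ ≤ Q * (Q + 1) * D :=
        mul_le_mul_of_nonneg_left hρD (by nlinarith)
      have A4 : (Q + 1) * (Q * io) ≤ (Q + 1) * ρ := mul_le_mul_of_nonneg_left iw (by linarith)
      have A5 : 0 < Q * Q - Q - 1 := by nlinarith
      have A6 : 0 < ρ * (Q * Q - Q - 1) := mul_pos (by linarith) A5
      linarith [A2, A3, A4, A6]
  · have hu : (u : ℤ) + 1 = Q - 1 := by omega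
    rw [hu, h, Nat.cast_ofNat] at iw
    have hρD : ρ ≤ D := by
      rcases (by omega : V = 0 ∨ V = 1 ∨ V = 2) with h0 | h1 | h2
      · have := e0 h0
        omega
      · exact (e1 h1).2
      · exact e2 h2
    have A2 : (Q - 1) * ((Q + 1) * (D - io)) ≤ (Q - 1) * ρ :=
      mul_le_mul_of_nonneg_left A1 (by linarith)
    have A3 : (Q - 1) * (Q + 1) * ρ ≤ (Q - 1) * (Q + 1) * D :=
      mul_le_mul_of_nonneg_left hρD (by nlinarith)
    have A4 : (Q + 1) * ((Q - 1) * io) ≤ (Q + 1) * (2 * ρ) :=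
      mul_le_mul_of_nonneg_left iw (by linarith)
    have A5 : 0 < Q * Q - 3 * Q - 2 := by nlinarith
    have A6 : 0 < ρ * (Q * Q - 3 * Q - 2) := mul_pos (by linarith) A5
    linarith [A2, A3, A4, A6]
  · have hu : (u : ℤ) = Q - 3 := by omega
    have haD : a ≤ D ∧ ρ ≤ D := by
      rcases (by omega : V = 0 ∨ V = 1) with h0 | h1
      · have := e0 h0
        constructor <;> omega
      · exact e1 h1
    rw [hu] at ia
    have A2 : (Q - 3) * a ≤ (Q - 3) * D := mul_le_mul_of_nonneg_left haD.1 (by linarith)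
    have A7 : (Q - 3 + 1) * io ≤ (Q - 3) * D := ia.trans A2
    have A3 : ρ ≤ (Q - 2) * (D - io) := by linarith [haD.2]
    have A4 : (Q - 2) * (D - io) ≤ (Q - 2) * D' := mul_le_mul_of_nonneg_left hx (by linarith)
    have A5 : D' ≤ 0 := by linarith
    have A6 : (Q - 2) * D' ≤ 0 := mul_nonpos_of_nonneg_of_nonpos (by linarith) A5
    linarith
  · have hV0 : V = 0 := by omega
    have h6 := e0 hV0
    have h7 : io ≤ a - 1 := by
      by_contra h8
      have h9 : a ≤ io := by omega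
      have hu0 : (0 : ℤ) ≤ (u : ℤ) := by omega
      have h10 : ((u : ℤ) + 1) * a ≤ ((u : ℤ) + 1) * io :=
        mul_le_mul_of_nonneg_left h9 (by linarith)
      linarith
    have h8 : ρ ≤ D' := by omega
    have h9 : 0 < Q * D' := mul_pos (by linarith) (by linarith)
    linarith

theorem tV4 (h : S_Pk) (h0 : S_V0) (h1 : S_V1) (h2 : S_V2) (h3 : S_V3) : S_V4 := by
  intro m A C β hA hC q
  induction q with
  | zero => intro η V _ _ h5; omega
  | succ q ih =>
    intro η' V' hP hV' h5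
    obtain ⟨η, V, u, w, v, c, io, hPa, P, hVV, hD⟩ := h m A C β hA hC q η' V' hP
    have hm : 0 < m := by have := P.qm; omega
    have hsn : ∑ k, -al η k = 0 := by rw [Finset.sum_neg_distrib, P.sum0, neg_zero]
    have hsn' : ∑ k, -al η' k = 0 := by rw [Finset.sum_neg_distrib, P.sum1, neg_zero]
    obtain ⟨k0, hk0⟩ := V4_max m (fun k => -al η k) hm
    obtain ⟨l0, hl0⟩ := V4_max m (fun k => al η k) hm
    have hρ0 : 0 ≤ -al η k0 := V4_nn m (fun k => -al η k) _ hm hsn hk0
    have ha0 : 0 ≤ al η l0 := V4_nn m (fun k => al η k) _ hm P.sum0 hl0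
    have hDnn : 0 ≤ DD A C β q V := by
      rcases (by omega : V = 0 ∨ V = 1 ∨ V = 2 ∨ V = 3 ∨ V = 4) with hv | hv | hv | hv | hv
      · exact (h0 m A C β hA hC q η V hPa hv).1
      · exact (h1 m A C β hA hC q η V hPa hv).1
      · exact (h2 m A C β hA hC q η V hPa hv).1
      · exact (h3 m A C β hA hC q η V hPa hv).1
      · rcases (by omega : q = 4 ∨ 5 ≤ q) with hq | hq
        · have := zK4 m A C β hA hC q η V hPa (by omega) P.qm l0
          omega
        · exact (ih η V hPa hv hq).1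
    rw [hD]
    by_cases hw : w = 0
    · obtain ⟨hw1, hw2⟩ := P.w0 hw
      have hio : 0 ≤ -io := V4_nn m (fun k => -al η' k) _ hm hsn' hw1
      refine ⟨by omega, fun k hk => ?_⟩
      have h6 := hw1 k
      have h7 : -al η' k ≤ DD A C β q V + v + c - io := by omega
      have h8 : (4 : ℤ) ≤ q := by omega
      push_cast
      nlinarith
    · have hw' : 1 ≤ w := by omega
      have hr := P.w1 hw' _ hk0
      have hiw := P.iw _ hk0
      have hia := P.ia _ hl0
      by_cases hρ : 1 ≤ -al η k0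
      · obtain ⟨l1, hl1⟩ := V4_two m (fun k => al η k) P.sum0 k0 hρ
        have ha1 : 1 ≤ al η l0 := le_trans hl1 (hl0 l1)
        have key := V4_ar q u w v c V (DD A C β q V) _ io (-al η k0) (al η l0) (by omega) P.uw
          (by omega) hw' rfl hρ ha1 hiw hia
          (fun hv => by
            have := (h0 m A C β hA hC q η V hPa hv).2.2.1 k0 l0 hρ
            omega)
          (fun hv => ⟨(h1 m A C β hA hC q η V hPa hv).2.1 l0,
            (h1 m A C β hA hC q η V hPa hv).2.2.1 k0⟩)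
          (fun hv => (h2 m A C β hA hC q η V hPa hv).2 k0)
          (fun hv => ⟨fun h4 => (h3 m A C β hA hC q η V hPa hv).2.1 h4 k0,
            fun h4 => (h3 m A C β hA hC q η V hPa hv).2.2 h4 k0 hρ⟩)
        constructor
        · by_contra hneg
          have h9 := not_le.1 hneg
          have h8 : (0 : ℤ) ≤ (q : ℤ) := by omega
          nlinarith
        · intro k _
          push_cast
          exact lt_of_le_of_lt (hr k) key
      · have hρ1 : -al η k0 = 0 := by omega
        have hio : io ≤ 0 := by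
          rw [hρ1, mul_zero] at hiw
          by_contra hneg
          have h9 := not_le.1 hneg
          have h8 : (0 : ℤ) ≤ (u : ℤ) := by omega
          nlinarith
        refine ⟨by omega, fun k hk => ?_⟩
        have h6 := hr k
        rw [hρ1] at h6
        omega

end PW
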