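import Pool.Agent.Lib.MP_3b3418_ag.PW.SpecT

/-!
# Project PV2, part U: module V5
-/

set_option autoImplicit false

namespace PW

open MP3s PV

private theorem V5_neg {m : ℕ} (f : Fin m → ℤ) (hs : ∑ k, f k = 0) (h : ∀ k, -f k ≤ 0) :
    ∀ k, f k = 0 := by
  have h1 : ∀ k ∈ Finset.univ, 0 ≤ f k := fun k _ => by
    have := h k
    linarith
  intro k
  exact (Finset.sum_eq_zero_iff_of_nonneg h1).1 hs k (Finset.mem_univ k)

private theorem V5_pos {m : ℕ} (f : Fin m → ℤ) (hs : ∑ k, f k = 0) (h : ∃ k, f k ≠ 0) :
    ∃ k, 1 ≤ -f k := by
  by_contra hc
  push Not at hc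
  obtain ⟨k, hk⟩ := h
  refine hk (V5_neg f hs (fun k => ?_) k)
  have := hc k
  omega

private theorem V5_up {m : ℕ} (f : Fin m → ℤ) (hs : ∑ k, f k = 0) (h : ∃ k, f k ≠ 0) :
    ∃ k, 1 ≤ f k := by
  obtain ⟨k, hk⟩ := V5_pos (fun k => -f k) (by rw [Finset.sum_neg_distrib, hs, neg_zero])
    (by
      obtain ⟨k, hk⟩ := h
      exact ⟨k, neg_ne_zero.2 hk⟩)
  exact ⟨k, by simpa using hk⟩

theorem tV5 (h : S_Pk) (h0 : S_V0) (h1 : S_V1) (h2 : S_V2) (h3 : S_V3) (h4 : S_V4)
    (hX : S_VX) : S_V5 := by
  intro m A C β hA hC q
  induction q with
  | zero =>
    intro η V _ _ h6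
    omega
  | succ q ih =>
    intro η' V' hPa hV' hq6
    subst hV'
    obtain ⟨η, V, u, w, v, c, io, hP, hk, hVV, hDD⟩ := h m A C β hA hC q η' 5 hPa
    obtain ⟨huw, hqm, hs0, hs1, htail, hu0, hw0, hw1, hf1, hiw, hia, hup, hpu, hxu⟩ := hk
    have hq5 : 5 ≤ q := by omega
    have hmpos : 0 < m := by omega
    have hD0 : 0 ≤ DD A C β q V := by
      have hV5 : V ≤ 5 := by omega
      rcases Nat.lt_or_ge V 5 with hlt | hge
      · have hV : V = 0 ∨ V = 1 ∨ V = 2 ∨ V = 3 ∨ V = 4 := by omega
        rcases hV with e | e | e | e | e
        · exact (h0 m A C β hA hC q η V hP e).1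
        · exact (h1 m A C β hA hC q η V hP e).1
        · exact (h2 m A C β hA hC q η V hP e).1
        · exact (h3 m A C β hA hC q η V hP e).1
        · exact (h4 m A C β hA hC q η V hP e hq5).1
      · have e : V = 5 := by omega
        rcases Nat.lt_or_ge q 6 with h6 | h6
        · have e5 : q = 5 := by omega
          subst e5
          obtain ⟨η4, V4, u4, w4, v4, c4, io4, hP4, hk4, -, hDD4⟩ :=
            h m A C β hA hC 4 η V hP
          have hK := zK4 m A C β hA hC 4 η4 V4 hP4 le_rfl hk4.qm
          have hia4 := hk4.ia _ hK
          have hq4 : 4 < m := hk4.qm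
          have ht4 := hk4.tail ⟨4, hq4⟩ le_rfl
          have hK0 := hK ⟨4, hq4⟩
          rw [ht4] at hK0
          rw [hDD4]
          have hv4 : (0 : ℤ) ≤ v4 := by positivity
          have hc4 : (0 : ℤ) ≤ c4 := by positivity
          have hu4 : (0 : ℤ) ≤ u4 := by positivity
          have hio : io4 ≤ DD A C β 4 V4 := by
            by_contra hcon
            push Not at hcon
            nlinarith
          linarith
        · exact (ih η V hP e h6).1
    rw [hDD]
    generalize hDeq : DD A C β q V = D at *
    have hv0 : (0 : ℤ) ≤ v := by positivity
    have hc0 : (0 : ℤ) ≤ c := by positivity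
    have hu0' : (0 : ℤ) ≤ u := by positivity
    rcases Nat.eq_zero_or_pos w with hw | hw
    · obtain ⟨hmin, -⟩ := hw0 hw
      have hio : 0 ≤ -io := by
        by_contra hcon
        push Not at hcon
        have e1 := V5_neg (al η') hs1 (fun k => by
          have := hmin k
          linarith) ⟨0, hmpos⟩
        have e2 := hmin ⟨0, hmpos⟩
        rw [e1] at e2
        linarith
      refine ⟨by linarith, fun hex => ?_⟩
      obtain ⟨k, hk⟩ := V5_pos (al η') hs1 hex
      have e2 := hmin k
      linarith
    · have : Nonempty (Fin m) := ⟨⟨0, hmpos⟩⟩
      obtain ⟨k0, -, hk0⟩ := Finset.exists_max_image Finset.univ (fun k => -al η k)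
        Finset.univ_nonempty
      obtain ⟨ρ, hρ⟩ : ∃ ρ, ρ = -al η k0 := ⟨_, rfl⟩
      have hρk : ∀ k, -al η k ≤ ρ := fun k => by
        rw [hρ]
        exact hk0 k (Finset.mem_univ k)
      have hw1' := hw1 hw ρ hρk
      have hiw' := hiw ρ hρk
      rcases le_or_gt ρ 0 with hρ0 | hρ1
      · have e1 := V5_neg (al η') hs1 (fun k => (hw1' k).trans hρ0)
        have hw0' : (0 : ℤ) ≤ w := by positivity
        have hio : io ≤ 0 := by
          by_contra hcon
          push Not at hcon
          have e2 : (w : ℤ) * ρ ≤ 0 := mul_nonpos_of_nonneg_of_nonpos hw0' hρ0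
          nlinarith
        refine ⟨by linarith, fun hex => ?_⟩
        obtain ⟨k, hk⟩ := hex
        exact absurd (e1 k) hk
      · have hρ1' : 1 ≤ ρ := hρ1
        have hk01 : 1 ≤ -al η k0 := by
          rw [← hρ]
          exact hρ1'
        have hex : ∃ k, al η k ≠ 0 := ⟨k0, fun e => by
          rw [e] at hk01
          omega⟩
        obtain ⟨l, hl⟩ := V5_up (al η) hs0 hex
        have hQ : (5 : ℤ) ≤ q := by exact_mod_cast hq5
        have huq : (u : ℤ) + w = q := by exact_mod_cast huw
        -- the bounds on `ρ`
        have hV4 : V ≤ 4 := by omega
        have r1 : V ≤ 1 → ∀ k, al η k ≤ D := by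
          intro hV
          have hV' : V = 0 ∨ V = 1 := by omega
          rcases hV' with e | e
          · have := (h0 m A C β hA hC q η V hP e).2.1
            rw [hDeq] at this
            exact this
          · have := (h1 m A C β hA hC q η V hP e).2.1
            rw [hDeq] at this
            exact this
        have r2 : V ≤ 2 → ρ ≤ D := by
          intro hV
          have hV' : V = 0 ∨ V = 1 ∨ V = 2 := by omega
          rcases hV' with e | e | e
          · have := (h0 m A C β hA hC q η V hP e).2.2.1 k0 l hk01
            rw [hDeq] at this
            linarith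
          · have := (h1 m A C β hA hC q η V hP e).2.2.1 k0
            rw [hDeq] at this
            linarith
          · have := (h2 m A C β hA hC q η V hP e).2 k0
            rw [hDeq] at this
            linarith
        have r3 : V ≤ 3 → 2 * ρ < ((q : ℤ) - 1) * D := by
          intro hV
          rcases Nat.lt_or_ge V 3 with hlt | hge
          · have e := r2 (by omega)
            nlinarith
          · have := (h3 m A C β hA hC q η V hP (by omega)).2.2 hq5 k0 hk01
            rw [hDeq, ← hρ] at this
            exact this
        have r4 : ρ < (q : ℤ) * D := by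
          rcases Nat.lt_or_ge V 4 with hlt | hge
          · have e := r3 (by omega)
            nlinarith
          · have := (h4 m A C β hA hC q η V hP (by omega) hq5).2 k0 hk01
            rw [hDeq, ← hρ] at this
            exact this
        have hD1 : 1 ≤ D := by
          by_contra hcon
          have : D = 0 := by omega
          rw [this] at r4
          linarith
        have hio : io < D := by
          have hw5 : w = 1 ∨ w = 2 ∨ w = 3 ∨ 4 ≤ w := by omega
          rcases hw5 with e | e | e | e
          · subst e
            push_cast at huq hiw'
            have e1 : (q : ℤ) * io < q * D := by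
              rw [← huq] at r4 ⊢
              linarith
            exact lt_of_mul_lt_mul_left e1 (by linarith)
          · subst e
            push_cast at huq hiw'
            have e3 := r3 (by omega)
            have e1 : ((q : ℤ) - 1) * io < (q - 1) * D := by
              have e2 : (q : ℤ) - 1 = u + 1 := by linarith
              rw [e2] at e3 ⊢
              linarith
            exact lt_of_mul_lt_mul_left e1 (by linarith)
          · subst e
            push_cast at huq hiw'
            have e2 := r2 (by omega)
            rcases Nat.lt_or_ge q 6 with h6 | h6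
            · have e5 : q = 5 := by omega
              have eu : u = 2 := by omega
              subst eu
              rcases Nat.lt_or_ge V 2 with hlt | hge
              · have := hia D (r1 (by omega))
                push_cast at this
                linarith
              · have hV2 : V = 2 := by omega
                subst e5
                have := hX m A C β hA hC η V hP hV2 hqm (by rw [hDeq]; exact hD1)
                rw [hDeq] at this
                push_cast at hf1
                by_contra hcon
                push Not at hcon
                linarith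
            · have hu3 : (3 : ℤ) ≤ u := by
                have : 3 ≤ u := by omega
                exact_mod_cast this
              by_contra hcon
              push Not at hcon
              nlinarith
          · have := hia D (r1 (by omega))
            by_contra hcon
            push Not at hcon
            nlinarith
        exact ⟨by linarith, fun _ => by linarith⟩

end PW
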