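import Pool.Agent.Lib.MP_3b3418_ag.PW.SpecT

/-!
# Project PV2, part T: the exceptional case, stage 5
-/

set_option autoImplicit false

namespace PW

open MP3s PV

private theorem VX_two {m : ℕ} (h : 5 < m) (f : Fin m → ℤ) :
    ∑ k : Fin m with k.val < 2, f k = f ⟨0, by omega⟩ + f ⟨1, by omega⟩ := by
  have e : (Finset.univ.filter fun k : Fin m => k.val < 2) =
      {(⟨0, by omega⟩ : Fin m), (⟨1, by omega⟩ : Fin m)} := by
    ext k
    simp only [Finset.mem_filter, Finset.mem_univ, true_and, Finset.mem_insert,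
      Finset.mem_singleton, Fin.ext_iff]
    omega
  have hne : (⟨0, by omega⟩ : Fin m) ≠ (⟨1, by omega⟩ : Fin m) := by
    intro hh
    have := congrArg Fin.val hh
    simp at this
  rw [e, Finset.sum_pair hne]

private theorem VX_five {m : ℕ} (h : 5 < m) (f : Fin m → ℤ)
    (hf : ∀ k : Fin m, 5 ≤ k.val → f k = 0) :
    ∑ k : Fin m, f k = f ⟨0, by omega⟩ + f ⟨1, by omega⟩ + f ⟨2, by omega⟩ + f ⟨3, by omega⟩ +
      f ⟨4, by omega⟩ := by
  have e : ∑ k : Fin m, f k = ∑ k ∈ (Finset.univ.filter fun k : Fin m => k.val < 5), f k := by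
    rw [Finset.sum_filter]
    refine Finset.sum_congr rfl fun k _ => ?_
    split_ifs with hk
    · rfl
    · exact hf k (by omega)
  have e2 : (Finset.univ.filter fun k : Fin m => k.val < 5) =
      {(⟨0, by omega⟩ : Fin m), (⟨1, by omega⟩ : Fin m), (⟨2, by omega⟩ : Fin m),
        (⟨3, by omega⟩ : Fin m), (⟨4, by omega⟩ : Fin m)} := by
    ext k
    simp only [Finset.mem_filter, Finset.mem_univ, true_and, Finset.mem_insert,
      Finset.mem_singleton, Fin.ext_iff]
    omega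
  rw [e, e2, Finset.sum_insert (by simp [Fin.ext_iff]), Finset.sum_insert (by simp [Fin.ext_iff]),
    Finset.sum_insert (by simp [Fin.ext_iff]), Finset.sum_insert (by simp [Fin.ext_iff]),
    Finset.sum_singleton]
  ring

theorem tVX (h : S_Pk) (h2 : S_V2) : S_VX := by
  intro m A C β hA hC η V hPa hV hm hD
  obtain ⟨_, _, htail, hsum⟩ := zAc m A C β hA hC |>.2.2 5 η V hPa
  have htail0 : ∀ k : Fin m, 5 ≤ k.val → al η k = 0 := by
    intro k hk
    show η k - del m k = 0
    rw [htail k hk]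
    ring
  obtain ⟨_, hneg⟩ := h2 m A C β hA hC 5 η V hPa hV
  rw [VX_five hm (al η) htail0] at hsum
  rw [VX_two hm (al η)]
  by_contra hcon
  have n2 := hneg ⟨2, by omega⟩
  have n3 := hneg ⟨3, by omega⟩
  have n4 := hneg ⟨4, by omega⟩
  have e2 : al η ⟨2, by omega⟩ = -DD A C β 5 V := by omega
  have e3 : al η ⟨3, by omega⟩ = -DD A C β 5 V := by omega
  have e4 : al η ⟨4, by omega⟩ = -DD A C β 5 V := by omega
  obtain ⟨η4, V4, u, w, v, c, io, hPa4, hPk, hVe, hDe⟩ := h m A C β hA hC 4 η V hPa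
  have huw := hPk.uw
  have hio : io = -DD A C β 5 V := by
    have hu : u = 2 ∨ u = 3 ∨ u = 4 := by omega
    rcases hu with hu | hu | hu
    · rw [← hPk.xu ⟨2, by omega⟩ hu.symm, e2]
    · rw [← hPk.xu ⟨3, by omega⟩ hu.symm, e3]
    · rw [← hPk.xu ⟨4, by omega⟩ hu.symm, e4]
  have hK4 := zK4 m A C β hA hC 4 η4 V4 hPa4 (by omega) (by omega)
  have hD4 : 0 ≤ DD A C β 4 V4 := by
    have h1 := hK4 ⟨4, by omega⟩
    rw [hPk.tail ⟨4, by omega⟩ (by simp)] at h1
    exact h1
  have hDe' : DD A C β 5 V = DD A C β 4 V4 + v + c - io := hDe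
  have hD40 : DD A C β 4 V4 = 0 := by omega
  have hc0 : c = 0 := by omega
  have hup := hPk.up 0 (fun k => by
    have h1 := hK4 k
    rw [hD40] at h1
    exact h1)
  have u0 := hup ⟨0, by omega⟩
  have u1 := hup ⟨1, by omega⟩
  omega

end PW
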