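import Pool.Agent.Lib.MP_3b3418_ag.PW.SpecT

/-! # Project PV2, module U/Pu: partial sums after a step with `w = 1`, `ι ≥ 0` -/

set_option autoImplicit false

namespace PW

open MP3s PV

/-- The partial sum with one more term. -/
private theorem Pu_succ {m : ℕ} (f : Fin m → ℤ) (u : ℕ) (hu : u < m) :
    ∑ k : Fin m with k.val < u + 1, f k = (∑ k : Fin m with k.val < u, f k) + f ⟨u, hu⟩ := by
  have h : (Finset.univ.filter fun k : Fin m => k.val < u + 1) =
      insert (⟨u, hu⟩ : Fin m) (Finset.univ.filter fun k : Fin m => k.val < u) := by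
    ext k
    simp only [Finset.mem_filter, Finset.mem_univ, true_and, Finset.mem_insert, Fin.ext_iff]
    omega
  rw [h, Finset.sum_insert (by simp), add_comm]

/-- Partial sums reach the whole sum. -/
private theorem Pu_all {m : ℕ} (f : Fin m → ℤ) (q r : ℕ) (hr : q ≤ r)
    (ht : ∀ k : Fin m, q ≤ k.val → f k = 0) :
    ∑ k : Fin m with k.val < r, f k = ∑ k, f k := by
  apply Finset.sum_subset (Finset.subset_univ _)
  intro k _ hk
  apply ht
  by_contra hlt
  apply hk
  rw [Finset.mem_filter]
  exact ⟨Finset.mem_univ _, by omega⟩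

theorem tPu : S_Pu := by
  intro m q η η' s b γ h huq hio ρ hρ
  obtain ⟨-, -, hX, -⟩ := zP1 m q η η' s b γ h
  obtain ⟨h2, hdec, htail, hsum⟩ := zP2 m q η η' s b γ h
  obtain ⟨u, hu'⟩ : ∃ u, u = uu q η s b γ := ⟨_, rfl⟩
  obtain ⟨N, hN⟩ : ∃ N, N = nn s b γ := ⟨_, rfl⟩
  rw [← hu'] at huq hio hX h2
  rw [← hN] at hio hX h2
  have hqm := h.hq
  have hum : u < m := by omega
  have ht : ∀ k : Fin m, q ≤ k.val → al η k = 0 := by
    intro k hk
    unfold al
    rw [h.tail k hk, sub_self]
  have ht' : ∀ k : Fin m, q + 1 ≤ k.val → al η' k = 0 := by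
    intro k hk
    unfold al
    rw [htail k hk, sub_self]
  have hρ0 : 0 ≤ ρ := by
    have h1 := hρ ⟨q, hqm⟩
    rw [ht ⟨q, hqm⟩ le_rfl, neg_zero] at h1
    exact h1
  -- the sum below `u` before the step
  have hB : ∑ k : Fin m with k.val < u, al η k ≤ ρ := by
    have h1 := Pu_succ (al η) u hum
    have h3 := Pu_all (al η) q (u + 1) (by omega) ht
    rw [h3, h.sum0] at h1
    have h4 := hρ ⟨u, hum⟩
    linarith
  -- the sum below `u + 1` after the step
  have hA : ∑ k : Fin m with k.val < u + 1, al η' k ≤ ρ := by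
    obtain ⟨R, hRq, hR⟩ := h2 (u + 1) (by omega)
    rcases hR with ⟨hlt, -, -⟩ | ⟨-, hRc, hRs⟩
    · omega
    · have hRc' : R.card = u := by omega
      have hz : ∀ k ∈ R, zt q η s b γ k = η k + ((s k : ℤ) + b k + γ k) - 1 := by
        intro k hk
        unfold zt
        rw [if_pos (hRq k hk)]
        ring
      have h3 : ∑ k ∈ R, zt q η s b γ k =
          ∑ k ∈ R, η k + ∑ k ∈ R, ((s k : ℤ) + b k + γ k) - u := by
        rw [Finset.sum_congr rfl hz, Finset.sum_sub_distrib, Finset.sum_add_distrib,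
          Finset.sum_const, hRc']
        simp
      have h4 : ∑ k ∈ R, ((s k : ℤ) + b k + γ k) ≤ N := by
        rw [hN]
        unfold nn
        exact Finset.sum_le_sum_of_subset_of_nonneg (Finset.subset_univ _)
          (fun k _ _ => by positivity)
      have h5 := (zTS m q η h.dec).1 R hRq
      rw [hRc'] at h5
      have h6 : ∑ k : Fin m with k.val < u + 1, al η' k =
          ∑ k : Fin m with k.val < u + 1, η' k - ∑ k : Fin m with k.val < u + 1, del m k := by
        rw [← Finset.sum_sub_distrib]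
        rfl
      have h7 : ∑ k : Fin m with k.val < u, al η k =
          ∑ k : Fin m with k.val < u, η k - ∑ k : Fin m with k.val < u, del m k := by
        rw [← Finset.sum_sub_distrib]
        rfl
      have h8 := Pu_succ (del m) u hum
      have h9 : del m ⟨u, hum⟩ = (m : ℤ) - 1 - u := rfl
      rw [h9] at h8
      rw [h6, hRs, h3, h8]
      rw [h7] at hB
      linarith
  have hTS' := zTS m (q + 1) η' hdec
  -- the terms are nonnegative
  have hpos : ∀ k : Fin m, k.val ≤ u → 0 ≤ al η' k := by
    intro k hk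
    have h1 := (hTS'.2.1 k ⟨u, hum⟩ (Fin.le_def.2 hk) (by show u < q + 1; omega)).2
    have h3 : al η' ⟨u, hum⟩ = (u : ℤ) - N := by
      unfold al del
      rw [hX ⟨u, hum⟩ rfl]
      simp only
      ring
    rw [h3] at h1
    linarith
  have hall : ∀ r : ℕ, ∑ k : Fin m with k.val < r, al η' k ≤ ρ := by
    intro r
    rcases Nat.lt_or_ge q r with hr | hr
    · rw [Pu_all (al η') (q + 1) r hr ht', hsum]
      exact hρ0
    · refine le_trans ?_ hA
      apply Finset.sum_le_sum_of_subset_of_nonneg
      · intro k hk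
        rw [Finset.mem_filter] at hk ⊢
        exact ⟨hk.1, by omega⟩
      · intro k hk _
        apply hpos
        have := (Finset.mem_filter.1 hk).2
        omega
  refine ⟨hall, fun k => ?_⟩
  have hm : 0 < m := by omega
  have h1 := ((hTS'.2.2 htail hsum).1 ⟨0, hm⟩ rfl).2.1 k
  refine le_trans h1 ?_
  have h3 := hall (0 + 1)
  rw [Pu_succ (al η') 0 hm] at h3
  have h5 : ∑ k : Fin m with k.val < 0, al η' k = 0 := by
    apply Finset.sum_eq_zero
    intro k hk
    exact absurd (Finset.mem_filter.1 hk).2 (Nat.not_lt_zero _)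
  rw [h5, zero_add] at h3
  exact h3

end PW
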